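import Pool.Agent.Tam.Half

/-!
# Equal consecutive values in the Tammes problem (MP_97a6ed_co)

`a n` (`Pool/Agent/Tam/Defs.lean`) is the largest angle `d` such that `n` points of the unit sphere
are at mutual angles at least `d`.  We prove `a n < a (n - k)` for all `k ≥ √n` (with
`n - k ≥ 2`), and more precisely for all `k ≥ (n / 2) sin (a n / 2) + 1`; so the set `E` of the `n`
with `a n = a (n - 1)` contains no `k` consecutive integers ending at `n` when `k ≥ √n`, and the
number of elements of `{3, …, N} \ E` is at least `(2 - ε) √N - C(ε)`.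

Proof.  Take an optimal configuration of `n` points, at minimal angle `θ = a n`.  The average over
all great circles of the number of points at distance at most `θ / 2` from the circle is
`n sin (θ / 2)` (Archimedes).  Choose a circle with at most this number and an antipodal pair on it
(the axis) in general position.  At most one point is at distance less than `θ / 2` from each of
the two poles, so one of the two halves of the great circle has at most `(n / 2) sin (θ / 2) + 1`
points at distance at most `θ / 2`.  Remove them.  Two remaining points at angle `θ` are not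
separated by the half circle, and multiplying all longitudes by `1 + ε` increases all the angles
which are equal to `θ`.  Finally `(n / 2) sin (θ / 2) < √n` since the caps of radius `θ / 2` are
disjoint.
-/

namespace Pool.Agent.Results.MP_97a6ed_co.ShortRuns

open Tam Real

/-- the precise form -/
theorem a_lt_precise {n k : ℕ} (h2 : 2 ≤ n - k) (hk0 : 1 ≤ k)
    (hk : (n : ℝ) / 2 * sin (a n / 2) + 1 ≤ k) : a n < a (n - k) := by
  have hn2 : 2 ≤ n := by omega
  have hn3 : 3 ≤ n := by omega
  have hn0 : (0 : ℝ) < n := by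
    have : 0 < n := by omega
    exact_mod_cast this
  have hc0lt : (1 - 1 / (18 * (n : ℝ))) < 1 := by
    have : 0 < 1 / (18 * (n : ℝ)) := by positivity
    linarith
  obtain ⟨c, hc, hconf, hopt⟩ := exists_opt hn2 (conf_sqrt (by omega : 1 ≤ n)) hc0lt
  have hc1 : c < 1 := by linarith
  have hcm := hconf.gt_neg_one hn3
  have ha : a n = arccos c := le_antisymm (a_le hn2 hconf hopt) (arccos_le_a hn2 hconf)
  obtain ⟨j, hj, c', hc', hconf'⟩ := remove hconf hcm hc1
  have hs : sin (a n / 2) = √((1 - c) / 2) := by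
    rw [ha, Real.sin_half_eq_sqrt (Real.arccos_nonneg c) (by
      have := Real.arccos_le_pi c
      have := Real.pi_pos
      linarith), Real.cos_arccos hcm.le hc1.le]
  rw [hs] at hk
  have hjk : j ≤ k := by
    have : (j : ℝ) ≤ k := by linarith
    exact_mod_cast this
  exact a_lt hn2 h2 hconf hopt (hconf'.mono_card (by omega)) hc'

/-- The main inequality. -/
theorem a_lt_of_le {n k : ℕ} (h2 : 2 ≤ n - k) (hk : √(n : ℝ) ≤ k) : a n < a (n - k) := by
  have hn2 : 2 ≤ n := by omega
  have hn0 : (0 : ℝ) < n := by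
    have : 0 < n := by omega
    exact_mod_cast this
  have hk0 : 0 < k := by
    have h1 : 0 < √(n : ℝ) := Real.sqrt_pos.mpr hn0
    have : (0 : ℝ) < k := by linarith
    exact_mod_cast this
  have hn3 : 3 ≤ n := by omega
  have hc0lt : (1 - 1 / (18 * (n : ℝ))) < 1 := by
    have : 0 < 1 / (18 * (n : ℝ)) := by positivity
    linarith
  obtain ⟨c, hc, hconf, hopt⟩ := exists_opt hn2 (conf_sqrt (by omega : 1 ≤ n)) hc0lt
  have hc1 : c < 1 := by linarith
  have hcm := hconf.gt_neg_one hn3
  obtain ⟨j, hj, c', hc', hconf'⟩ := remove hconf hcm hc1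
  have hlt := half_lt_sqrt hconf (by omega) hcm hc1
  have hjk : j ≤ k := by
    have : (j : ℝ) < k + 1 := by linarith
    have : j < k + 1 := by exact_mod_cast this
    omega
  exact a_lt hn2 h2 hconf hopt (hconf'.mono_card (by omega)) hc'

/-- The set `E` of the problem. -/
def E : Set ℕ := {n | 3 ≤ n ∧ a n = a (n - 1)}

lemma exists_notMem {n k : ℕ} (h2 : 2 ≤ n - k) (hk : √(n : ℝ) ≤ k) :
    ∃ m, n - k < m ∧ m ≤ n ∧ m ∉ E := by
  by_contra hcon
  push Not at hcon
  have h : ∀ j, j ≤ k → a (n - k + j) = a (n - k) := by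
    intro j
    induction j with
    | zero => intro _; rfl
    | succ j ih =>
      intro hj
      have h1 := ih (by omega)
      have h3 := hcon (n - k + (j + 1)) (by omega) (by omega)
      rw [h3.2, ← h1]
      congr 1
  have h3 := h k le_rfl
  have h4 := a_lt_of_le h2 hk
  rw [show n - k + k = n by omega] at h3
  linarith

/-- number of the elements of `{3, …, N}` which are not in `E` -/
noncomputable def cnt (N : ℕ) : ℕ := ({m | 3 ≤ m ∧ m ≤ N ∧ m ∉ E} : Set ℕ).ncard

lemma cnt_fin (N : ℕ) : ({m | 3 ≤ m ∧ m ≤ N ∧ m ∉ E} : Set ℕ).Finite :=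
  (Set.finite_Icc 3 N).subset (fun m hm => ⟨hm.1, hm.2.1⟩)

lemma cnt_step {N k : ℕ} (h2 : 2 ≤ N - k) (hk : √(N : ℝ) ≤ k) : cnt (N - k) + 1 ≤ cnt N := by
  obtain ⟨m, h3, h4, h5⟩ := exists_notMem h2 hk
  have hm : m ∉ ({m | 3 ≤ m ∧ m ≤ N - k ∧ m ∉ E} : Set ℕ) := fun h => by
    have := h.2.1
    omega
  unfold cnt
  rw [← Set.ncard_insert_of_notMem hm (cnt_fin _)]
  apply Set.ncard_le_ncard _ (cnt_fin _)
  intro x hx
  rcases hx with rfl | hx
  · exact ⟨by omega, h4, h5⟩
  · exact ⟨hx.1, hx.2.1.trans (Nat.sub_le _ _), hx.2.2⟩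

lemma count {ε : ℝ} (hε : 0 < ε) (hε2 : ε ≤ 2) : ∃ C : ℝ, ∀ N : ℕ, (2 - ε) * √(N : ℝ) - C ≤ cnt N := by
  set s0 : ℝ := max 4 (3 / ε) with hs0
  have h4 : 4 ≤ s0 := le_max_left _ _
  have h3 : 3 / ε ≤ s0 := le_max_right _ _
  refine ⟨(2 - ε) * s0, fun N => ?_⟩
  induction N using Nat.strong_induction_on with
  | _ N ih =>
    rcases lt_or_ge (√(N : ℝ)) s0 with hlt | hge
    · have h5 : (2 - ε) * √(N : ℝ) ≤ (2 - ε) * s0 := mul_le_mul_of_nonneg_left hlt.le (by linarith)
      have h6 : (0 : ℝ) ≤ cnt N := Nat.cast_nonneg _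
      linarith
    · set s : ℝ := √(N : ℝ) with hs
      have hs2 : s ^ 2 = N := Real.sq_sqrt (Nat.cast_nonneg N)
      set k : ℕ := ⌈s⌉₊ with hk
      have hk1 : s ≤ k := Nat.le_ceil _
      have hk2 : (k : ℝ) < s + 1 := Nat.ceil_lt_add_one (by linarith)
      have hk0 : 0 < k := by
        have : (0 : ℝ) < k := by linarith
        exact_mod_cast this
      have hkN : k + 2 ≤ N := by
        have : (k : ℝ) + 2 ≤ N := by nlinarith
        exact_mod_cast this
      have hsub : ((N - k : ℕ) : ℝ) = N - k := by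
        rw [Nat.cast_sub (by omega)]
      have h7 := ih (N - k) (by omega)
      have h8 := cnt_step (N := N) (k := k) (by omega) hk1
      have h8' : (cnt (N - k) : ℝ) + 1 ≤ cnt N := by exact_mod_cast h8
      set r : ℝ := √((N - k : ℕ) : ℝ) with hr
      have hr2 : r ^ 2 = N - k := by
        rw [hr, Real.sq_sqrt (Nat.cast_nonneg _), hsub]
      have hr0 : 0 ≤ r := Real.sqrt_nonneg _
      have hr1 : s - 1 ≤ r := by
        rw [hr]
        apply Real.le_sqrt_of_sq_le
        rw [hsub]
        nlinarith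
      -- `(2 - ε) (s - r) ≤ 1`
      have h9 : (s - r) * (s + r) = k := by nlinarith
      have h10 : (2 - ε) * (s + 1) ≤ 2 * s - 1 := by
        have : 3 ≤ ε * s := by
          have h11 : 3 / ε ≤ s := h3.trans hge
          rw [div_le_iff₀ hε] at h11
          linarith
        nlinarith
      have hsr : 0 < s + r := by linarith
      have h12 : (2 - ε) * (s - r) ≤ 1 := by
        by_contra hcon
        push Not at hcon
        have h13 : s + r < (2 - ε) * (s - r) * (s + r) := by
          nlinarith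
        have h14 : (2 - ε) * (s - r) * (s + r) = (2 - ε) * k := by
          rw [mul_assoc, h9]
        have h15 : (2 - ε) * k ≤ (2 - ε) * (s + 1) := mul_le_mul_of_nonneg_left hk2.le (by linarith)
        linarith
      have h16 : (2 - ε) * s - (2 - ε) * r ≤ 1 := by
        rw [← mul_sub]; exact h12
      linarith

/-- **Result.**  `a n < a (n - k)` whenever `k ≥ √n` and `n - k ≥ 2` (and whenever
`k ≥ 1`, `k ≥ (n / 2) sin (a n / 2) + 1` and `n - k ≥ 2`); hence `E` does not contain
`n - k + 1, …, n` when `k ≥ √n`; and `{3, …, N} \ E` has at least `(2 - ε) √N - C(ε)` elements. -/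
theorem result :
    (∀ n k : ℕ, 2 ≤ n - k → √(n : ℝ) ≤ k →
      a n < a (n - k) ∧ ∃ m, n - k < m ∧ m ≤ n ∧ m ∉ E) ∧
    (∀ n k : ℕ, 2 ≤ n - k → 1 ≤ k → (n : ℝ) / 2 * sin (a n / 2) + 1 ≤ k → a n < a (n - k)) ∧
    ∀ ε : ℝ, 0 < ε → ∃ C : ℝ, ∀ N : ℕ,
      (2 - ε) * √(N : ℝ) - C ≤ (({m | 3 ≤ m ∧ m ≤ N ∧ m ∉ E} : Set ℕ).ncard : ℝ) := by
  refine ⟨fun _ _ h2 hk => ⟨a_lt_of_le h2 hk, exists_notMem h2 hk⟩,
    fun _ _ h2 h1 hk => a_lt_precise h2 h1 hk, fun ε hε => ?_⟩
  rcases le_total ε 2 with h | h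
  · exact count hε h
  · refine ⟨0, fun N => ?_⟩
    have h1 : (2 - ε) * √(N : ℝ) ≤ 0 := mul_nonpos_of_nonpos_of_nonneg (by linarith) (Real.sqrt_nonneg _)
    have h2 : (0 : ℝ) ≤ (({m | 3 ≤ m ∧ m ≤ N ∧ m ∉ E} : Set ℕ).ncard : ℝ) := Nat.cast_nonneg _
    linarith

end Pool.Agent.Results.MP_97a6ed_co.ShortRuns
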