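import Pool.Agent.TamC.N13
import Pool.Agent.TamC.N14
import Pool.Agent.TamC.N15
import Pool.Agent.TamC.N16
import Pool.Agent.TamC.N17
import Pool.Agent.TamC.N18
import Pool.Agent.TamC.N19
import Pool.Agent.TamC.N21
import Pool.Agent.TamC.N22
import Pool.Agent.TamC.N23
import Pool.Agent.TamC.N25
import Pool.Agent.TamC.N28
import Pool.Agent.TamC.N33

/-!
# Values of `n` for which consecutive Tammes values differ (MP_97a6ed_co)

`Tam.a n` is the largest angle `d` such that `n` points of the unit sphere are at mutual angles at
least `d`.  We prove `a n < a (n - 1)` for `n = 13, …, 19, 21, 22, 23, 25, 28, 33`, so that none of these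
`n` is in the set `E` of the problem.

For each `n` the file `Pool/Agent/TamC/N<n>.lean` contains a configuration of `n - 1` points and a
certificate for the three-point semidefinite programming bound (Bachoc-Vallentin) which shows that
`n` points cannot be at these mutual angles.  The certificate consists of integer polynomials; the
two polynomial inequalities which it has to satisfy are checked by the kernel with a branch and
bound procedure on polynomials packed into natural numbers, whose soundness is proved in
`Pool/Agent/TamC`.
-/

namespace Pool.Agent.Results.MP_97a6ed_co.Strict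

open Tam

/-- The set `E` of the problem. -/
def E : Set ℕ := {n | 3 ≤ n ∧ a n = a (n - 1)}

/-- **Result.** -/
theorem result : ∀ n ∈ ({13, 14, 15, 16, 17, 18, 19, 21, 22, 23, 25, 28, 33} : Set ℕ),
    a n < a (n - 1) ∧ n ∉ E := by
  have h : ∀ n : ℕ, a n < a (n - 1) → a n < a (n - 1) ∧ n ∉ E :=
    fun n hn => ⟨hn, fun hE => hn.ne hE.2⟩
  intro n hn
  apply h
  simp only [Set.mem_insert_iff, Set.mem_singleton_iff] at hn
  rcases hn with rfl | rfl | rfl | rfl | rfl | rfl | rfl | rfl | rfl | rfl | rfl | rfl | rfl
  · exact TamC.N13.lt
  · exact TamC.N14.lt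
  · exact TamC.N15.lt
  · exact TamC.N16.lt
  · exact TamC.N17.lt
  · exact TamC.N18.lt
  · exact TamC.N19.lt
  · exact TamC.N21.lt
  · exact TamC.N22.lt
  · exact TamC.N23.lt
  · exact TamC.N25.lt
  · exact TamC.N28.lt
  · exact TamC.N33.lt

end Pool.Agent.Results.MP_97a6ed_co.Strict
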